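import Pool.Agent.H13.CH.Defs

open PowerSeries

namespace Pool.Agent.H13.CH

variable {k : Type*} [Field k]

/-! ### B: basics (helper13) -/

theorem Wild.one : Wild (1 : k⟦X⟧ →ₐ[k] k⟦X⟧) := by
  unfold Wild
  rw [AlgHom.one_apply, sub_self]
  exact dvd_zero _

theorem Wild.X_dvd {φ : k⟦X⟧ →ₐ[k] k⟦X⟧} (h : Wild φ) : (X : k⟦X⟧) ∣ φ X := by
  obtain ⟨y, hy⟩ := h
  refine ⟨1 + X * y, ?_⟩
  linear_combination hy

theorem X_pow_dvd_of_X_dvd {φ : k⟦X⟧ →ₐ[k] k⟦X⟧} (h : (X : k⟦X⟧) ∣ φ X) {N : ℕ} {f : k⟦X⟧}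
    (hf : X ^ N ∣ f) : X ^ N ∣ φ f := by
  obtain ⟨g, rfl⟩ := hf
  rw [map_mul, map_pow]
  exact Dvd.dvd.mul_right (pow_dvd_pow_of_dvd h N) _

theorem Wild.dvd_apply {φ : k⟦X⟧ →ₐ[k] k⟦X⟧} (h : Wild φ) {N : ℕ} {f : k⟦X⟧}
    (hf : X ^ N ∣ f) : X ^ N ∣ φ f := X_pow_dvd_of_X_dvd h.X_dvd hf

theorem Wild.mul {φ ψ : k⟦X⟧ →ₐ[k] k⟦X⟧} (h : Wild φ) (h' : Wild ψ) : Wild (φ * ψ) := by
  have h1 : (φ * ψ) X - X = φ (ψ X - X) + (φ X - X) := by
    rw [AlgHom.mul_apply, map_sub]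
    ring
  unfold Wild
  rw [h1]
  exact dvd_add (h.dvd_apply h') h

theorem Wild.pow {φ : k⟦X⟧ →ₐ[k] k⟦X⟧} (h : Wild φ) (n : ℕ) : Wild (φ ^ n) := by
  induction n with
  | zero =>
    rw [pow_zero]
    exact Wild.one
  | succ n ih =>
    rw [pow_succ]
    exact ih.mul h

theorem dvd_sub_trunc (N : ℕ) (f : k⟦X⟧) : X ^ N ∣ f - (trunc N f : k⟦X⟧) := by
  rw [X_pow_dvd_iff]
  intro m hm
  rw [map_sub, Polynomial.coeff_coe, coeff_trunc, if_pos hm, sub_self]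

theorem apply_coe (φ : k⟦X⟧ →ₐ[k] k⟦X⟧) (P : Polynomial k) :
    φ (P : k⟦X⟧) = Polynomial.aeval (φ X) P := by
  have h : ((φ.comp (Polynomial.coeToPowerSeries.algHom (R := k) k)) : Polynomial k →ₐ[k] k⟦X⟧) =
      Polynomial.aeval (φ X) := by
    apply Polynomial.algHom_ext
    simp
  have h2 := DFunLike.congr_fun h P
  simpa using h2

theorem congr_of_X_dvd {φ ψ : k⟦X⟧ →ₐ[k] k⟦X⟧} (h : (X : k⟦X⟧) ∣ φ X) (h' : (X : k⟦X⟧) ∣ ψ X)
    {N : ℕ} (hN : X ^ N ∣ φ X - ψ X) (f : k⟦X⟧) : X ^ N ∣ φ f - ψ f := by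
  have h1 : φ f - ψ f = φ (f - (trunc N f : k⟦X⟧)) - ψ (f - (trunc N f : k⟦X⟧)) +
      (φ (trunc N f : k⟦X⟧) - ψ (trunc N f : k⟦X⟧)) := by
    rw [map_sub, map_sub]
    ring
  rw [h1]
  refine dvd_add (dvd_sub (X_pow_dvd_of_X_dvd h (dvd_sub_trunc N f))
    (X_pow_dvd_of_X_dvd h' (dvd_sub_trunc N f))) ?_
  rw [apply_coe, apply_coe]
  refine dvd_trans hN ?_
  rw [Polynomial.aeval_def, Polynomial.aeval_def, Polynomial.eval₂_eq_eval_map,
    Polynomial.eval₂_eq_eval_map]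
  exact Polynomial.sub_dvd_eval_sub _ _ _

/-- two wild maps which agree on `X` modulo `X ^ N` agree modulo `X ^ N` -/
theorem Wild.congr {φ ψ : k⟦X⟧ →ₐ[k] k⟦X⟧} (h : Wild φ) (h' : Wild ψ) {N : ℕ}
    (hN : X ^ N ∣ φ X - ψ X) (f : k⟦X⟧) : X ^ N ∣ φ f - ψ f :=
  congr_of_X_dvd h.X_dvd h'.X_dvd hN f

theorem Wild.sub_dvd {φ : k⟦X⟧ →ₐ[k] k⟦X⟧} (h : Wild φ) {N : ℕ} {f : k⟦X⟧}
    (hf : X ^ N ∣ f) : X ^ (N + 1) ∣ φ f - f := by
  obtain ⟨g, rfl⟩ := hf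
  have h0 : (X : k⟦X⟧) ^ 1 ∣ φ g - g := by
    have := h.congr Wild.one (N := 1)
      (dvd_trans (pow_dvd_pow X one_le_two) (by rw [AlgHom.one_apply]; exact h)) g
    rwa [AlgHom.one_apply] at this
  obtain ⟨y, hy⟩ := h
  have h1 : φ X = X * (1 + X * y) := by linear_combination hy
  obtain ⟨z, hz⟩ := h0
  have h2 : (1 + X * y : k⟦X⟧) - 1 ∣ (1 + X * y) ^ N - 1 ^ N := sub_dvd_pow_sub_pow _ _ _
  obtain ⟨v, hv⟩ := h2
  rw [one_pow, add_sub_cancel_left] at hv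
  refine ⟨y * v * φ g + z, ?_⟩
  rw [map_mul, map_pow, h1, mul_pow, pow_succ]
  have h3 : φ g = g + X ^ 1 * z := by linear_combination hz
  have h4 : (1 + X * y : k⟦X⟧) ^ N = 1 + X * y * v := by linear_combination hv
  rw [h4]
  linear_combination (X : k⟦X⟧) ^ N * h3

theorem eq_of_forall_dvd {f g : k⟦X⟧} (h : ∀ N : ℕ, X ^ N ∣ f - g) : f = g := by
  ext n
  have := h (n + 1)
  rw [X_pow_dvd_iff] at this
  have h2 := this n (Nat.lt_succ_self n)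
  rw [map_sub] at h2
  exact sub_eq_zero.mp h2

theorem aeval_sub_one_pow_dvd {φ : k⟦X⟧ →ₐ[k] k⟦X⟧} (h : Wild φ) (j : ℕ) (f : k⟦X⟧) :
    X ^ j ∣ (Polynomial.aeval (φ.toLinearMap : Module.End k k⟦X⟧)
      ((Polynomial.X - 1 : Polynomial k) ^ j)) f := by
  induction j generalizing f with
  | zero =>
    rw [pow_zero]
    exact one_dvd _
  | succ j ih =>
    have h1 : (Polynomial.X - 1 : Polynomial k) ^ (j + 1) =
      (Polynomial.X - 1) * (Polynomial.X - 1) ^ j := pow_succ' _ _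
    rw [h1, map_mul, Module.End.mul_apply]
    have := h.sub_dvd (ih f)
    simpa using this

theorem toLinearMap_pow_apply (φ : k⟦X⟧ →ₐ[k] k⟦X⟧) (n : ℕ) (f : k⟦X⟧) :
    ((φ.toLinearMap : Module.End k k⟦X⟧) ^ n) f = (φ ^ n) f := by
  induction n generalizing f with
  | zero => rfl
  | succ n ih =>
    rw [pow_succ, pow_succ, Module.End.mul_apply, AlgHom.mul_apply, ih]
    rfl

theorem aeval_apply (φ : k⟦X⟧ →ₐ[k] k⟦X⟧) (q : Polynomial k) (f : k⟦X⟧) :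
    (Polynomial.aeval (φ.toLinearMap : Module.End k k⟦X⟧) q) f =
      q.sum fun i c => c • (φ ^ i) f := by
  rw [Polynomial.aeval_eq_sum_range, Polynomial.sum_def, LinearMap.sum_apply]
  have : ∀ i, ((q.coeff i • (φ.toLinearMap : Module.End k k⟦X⟧) ^ i) : Module.End k k⟦X⟧) f =
      q.coeff i • (φ ^ i) f := by
    intro i
    rw [LinearMap.smul_apply, toLinearMap_pow_apply]
  rw [Finset.sum_congr rfl (fun i _ => this i)]
  symm
  apply Finset.sum_subset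
  · intro i hi
    rw [Finset.mem_range]
    exact Nat.lt_succ_of_le (Polynomial.le_natDegree_of_mem_supp i hi)
  · intro i _ hi
    rw [Polynomial.notMem_support_iff.mp hi, zero_smul]

theorem Wild.pow_prime_pow (p : ℕ) [Fact p.Prime] [CharP k p] {φ : k⟦X⟧ →ₐ[k] k⟦X⟧}
    (h : Wild φ) {a N : ℕ} (ha : N ≤ p ^ a) (f : k⟦X⟧) : X ^ N ∣ (φ ^ p ^ a) f - f := by
  have h1 := aeval_sub_one_pow_dvd h (p ^ a) f
  rw [sub_pow_char_pow, one_pow] at h1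
  refine dvd_trans (pow_dvd_pow X ha) ?_
  rw [map_sub, map_pow, Polynomial.aeval_X, map_one, LinearMap.sub_apply, toLinearMap_pow_apply,
    Module.End.one_apply] at h1
  exact h1

theorem eq_subst {φ : k⟦X⟧ →ₐ[k] k⟦X⟧} (h : (X : k⟦X⟧) ∣ φ X) (f : k⟦X⟧) :
    φ f = f.subst (φ X) := by
  have hs : HasSubst (φ X) := by
    apply HasSubst.of_constantCoeff_zero'
    rwa [← X_dvd_iff]
  have h1 : (substAlgHom hs (R := k)) X = φ X := by
    rw [coe_substAlgHom, subst_X hs]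
  apply eq_of_forall_dvd
  intro N
  have h2 := congr_of_X_dvd (φ := φ) (ψ := substAlgHom hs (R := k)) h (by rw [h1]; exact h)
    (N := N) (by rw [h1, sub_self]; exact dvd_zero _) f
  rwa [coe_substAlgHom] at h2

/-- chain rule -/
theorem Wild.derivative_apply {φ : k⟦X⟧ →ₐ[k] k⟦X⟧} (h : Wild φ) (f : k⟦X⟧) :
    d⁄dX k (φ f) = φ (d⁄dX k f) * d⁄dX k (φ X) := by
  have hs : HasSubst (φ X) := by
    apply HasSubst.of_constantCoeff_zero'
    rw [← X_dvd_iff]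
    exact h.X_dvd
  rw [eq_subst h.X_dvd f, eq_subst h.X_dvd (d⁄dX k f), derivative_subst hs]

theorem mem_Lc_iff (p : ℕ) [Fact p.Prime] [CharP k p] {n : ℕ} {f : k⟦X⟧} :
    f ∈ Lc k p (n + 1) ↔ X ^ n ∣ d⁄dX k f := by
  rw [X_pow_dvd_iff, mem_Lc]
  constructor
  · intro h j hj
    rw [coeff_derivative]
    by_cases hp : p ∣ j + 1
    · have : ((j : k) + 1) = 0 := by
        have := (CharP.cast_eq_zero_iff k p (j + 1)).mpr hp
        push_cast at this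
        exact this
      rw [this, mul_zero]
    · rw [h (j + 1) (by omega) hp, zero_mul]
  · intro h i hi hp
    obtain ⟨j, rfl⟩ : ∃ j, i = j + 1 := by
      rcases i with _ | j
      · exact absurd (dvd_zero p) hp
      · exact ⟨j, rfl⟩
    have h1 := h j (by omega)
    rw [coeff_derivative] at h1
    rcases mul_eq_zero.mp h1 with h2 | h2
    · exact h2
    · exfalso
      apply hp
      apply (CharP.cast_eq_zero_iff k p (j + 1)).mp
      push_cast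
      exact h2

theorem derivative_pow_char (p : ℕ) [Fact p.Prime] [CharP k p] (f : k⟦X⟧) :
    d⁄dX k (f ^ p) = 0 := by
  rw [Derivation.leibniz_pow]
  have : ((p : ℕ) : k⟦X⟧) = 0 := by
    have h := (CharP.cast_eq_zero k p)
    have h2 : ((p : ℕ) : k⟦X⟧) = C ((p : ℕ) : k) := by
      rw [map_natCast]
    rw [h2, h, map_zero]
  rw [nsmul_eq_mul, this, zero_mul]

theorem pow_mem_Lc (p : ℕ) [Fact p.Prime] [CharP k p] (n : ℕ) (f : k⟦X⟧) :
    f ^ p ∈ Lc k p n := by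
  have h : f ^ p ∈ Lc k p (n + 1) := by
    rw [mem_Lc_iff, derivative_pow_char]
    exact dvd_zero _
  intro i hi hp
  exact h i (by omega) hp

theorem pow_mul_mem_Lc (p : ℕ) [Fact p.Prime] [CharP k p] {n : ℕ} (b : k⟦X⟧) {f : k⟦X⟧}
    (hf : f ∈ Lc k p n) : b ^ p * f ∈ Lc k p n := by
  intro i hi hp
  rw [coeff_mul]
  apply Finset.sum_eq_zero
  intro x hx
  have hx := Finset.HasAntidiagonal.mem_antidiagonal.mp hx
  by_cases h1 : p ∣ x.1
  · have h2 : ¬ p ∣ x.2 := by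
      intro h
      apply hp
      rw [← hx]
      exact dvd_add h1 h
    rw [hf x.2 (by omega) h2, mul_zero]
  · rw [pow_mem_Lc p (x.1 + 1) b x.1 (by omega) h1, zero_mul]

theorem dvd_mem_Lc {p n : ℕ} {f : k⟦X⟧} (hf : X ^ n ∣ f) : f ∈ Lc k p n := by
  rw [X_pow_dvd_iff] at hf
  intro i hi _
  exact hf i hi

theorem Wild.mem_Lc (p : ℕ) [Fact p.Prime] [CharP k p] {φ : k⟦X⟧ →ₐ[k] k⟦X⟧} (h : Wild φ)
    {n : ℕ} {f : k⟦X⟧} (hf : f ∈ Lc k p n) : φ f ∈ Lc k p n := by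
  rcases n with _ | n
  · intro i hi
    omega
  · rw [mem_Lc_iff] at hf ⊢
    rw [h.derivative_apply]
    exact Dvd.dvd.mul_right (h.dvd_apply hf) _

end Pool.Agent.H13.CH
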