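import Pool.Agent.H13.CH.Basic

/-!
PROOF.  `𝓡 = k[U]` acts on `A` through `φ`; `ψ (t i) ≡ ∑ j, c i j (φ) (t j)` modulo `Lc n` (`hg` for `f = ψ (t i)`),
`P = charpoly c`, monic of degree `r` in `V` (coefficients in `k[U]`).  `P (φ, ψ) A ⊆ Lc n`: either by the module
`A / Lc n` over `k[U]` (`Wild.mem_Lc`: `Lc n` is stable) and
`LinearMap.exists_monic_and_natDegree_eq_and_aeval_eq_zero` (`natDegree = spanFinrank ≤ r`; multiply by a power of
`V` to have degree exactly `r`), or by the adjugate.  `μ i j` = coefficient of `U ^ i` in the coefficient of `V ^ j`.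
-/

open PowerSeries

namespace Pool.Agent.H13.CH

variable {k : Type*} [Field k]

/-! ### CHAM: Cayley-Hamilton -/

private theorem stab_aeval (p : ℕ) [Fact p.Prime] [CharP k p] {φ : k⟦X⟧ →ₐ[k] k⟦X⟧}
    (hφ : Wild φ) {n : ℕ} (q : Polynomial k) {l : k⟦X⟧} (hl : l ∈ Lc k p n) :
    (Polynomial.aeval (φ.toLinearMap : Module.End k k⟦X⟧) q) l ∈ Lc k p n := by
  rw [aeval_apply]
  refine Submodule.sum_mem _ fun i _ => Submodule.smul_mem _ _ ?_
  exact (hφ.pow i).mem_Lc p hl

private theorem comm_aeval {φ ψ : k⟦X⟧ →ₐ[k] k⟦X⟧} (hc : φ * ψ = ψ * φ) (q : Polynomial k) :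
    Commute (Polynomial.aeval (φ.toLinearMap : Module.End k k⟦X⟧) q)
      (ψ.toLinearMap : Module.End k k⟦X⟧) := by
  have h0 : Commute (φ.toLinearMap : Module.End k k⟦X⟧) (ψ.toLinearMap : Module.End k k⟦X⟧) :=
    LinearMap.ext fun f => DFunLike.congr_fun hc f
  induction q using Polynomial.induction_on' with
  | add a b ha hb =>
    rw [map_add]
    exact ha.add_left hb
  | monomial m a =>
    rw [Polynomial.aeval_monomial]
    exact Commute.mul_left (Algebra.commutes a _) (h0.pow_left m)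

/-- evaluation at the two commuting endomorphisms -/
private noncomputable def ev {φ ψ : k⟦X⟧ →ₐ[k] k⟦X⟧} (hc : φ * ψ = ψ * φ) :
    Polynomial (Polynomial k) →+* Module.End k k⟦X⟧ :=
  Polynomial.eval₂RingHom'
    (Polynomial.aeval (R := k) (φ.toLinearMap : Module.End k k⟦X⟧)).toRingHom
    (ψ.toLinearMap : Module.End k k⟦X⟧) (fun q => comm_aeval hc q)

private theorem ev_apply {φ ψ : k⟦X⟧ →ₐ[k] k⟦X⟧} (hc : φ * ψ = ψ * φ)
    (Q : Polynomial (Polynomial k)) {r : ℕ} (hr : Q.natDegree < r + 1) (f : k⟦X⟧) :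
    ev hc Q f = ∑ j ∈ Finset.range (r + 1),
      (Polynomial.aeval (φ.toLinearMap : Module.End k k⟦X⟧) (Q.coeff j)) ((ψ ^ j) f) := by
  change (Polynomial.eval₂ (Polynomial.aeval (R := k) (φ.toLinearMap : Module.End k k⟦X⟧)).toRingHom
    (ψ.toLinearMap : Module.End k k⟦X⟧) Q : Module.End k k⟦X⟧) f = _
  rw [Polynomial.eval₂_eq_sum_range' _ hr, LinearMap.sum_apply]
  refine Finset.sum_congr rfl fun j _ => ?_
  rw [Module.End.mul_apply, toLinearMap_pow_apply]
  rfl

private theorem ev_C {φ ψ : k⟦X⟧ →ₐ[k] k⟦X⟧} (hc : φ * ψ = ψ * φ) (q : Polynomial k) :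
    ev hc (Polynomial.C q) = Polynomial.aeval (φ.toLinearMap : Module.End k k⟦X⟧) q := by
  change (Polynomial.eval₂ (Polynomial.aeval (R := k) (φ.toLinearMap : Module.End k k⟦X⟧)).toRingHom
    (ψ.toLinearMap : Module.End k k⟦X⟧) (Polynomial.C q) : Module.End k k⟦X⟧) = _
  rw [Polynomial.eval₂_C]
  rfl

private theorem ev_X {φ ψ : k⟦X⟧ →ₐ[k] k⟦X⟧} (hc : φ * ψ = ψ * φ) :
    ev hc Polynomial.X = (ψ.toLinearMap : Module.End k k⟦X⟧) := by
  change (Polynomial.eval₂ (Polynomial.aeval (R := k) (φ.toLinearMap : Module.End k k⟦X⟧)).toRingHom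
    (ψ.toLinearMap : Module.End k k⟦X⟧) Polynomial.X : Module.End k k⟦X⟧) = _
  rw [Polynomial.eval₂_X]

private theorem stab_ev (p : ℕ) [Fact p.Prime] [CharP k p] {φ ψ : k⟦X⟧ →ₐ[k] k⟦X⟧}
    (hφ : Wild φ) (hψ : Wild ψ) (hc : φ * ψ = ψ * φ) {n : ℕ}
    (Q : Polynomial (Polynomial k)) {l : k⟦X⟧} (hl : l ∈ Lc k p n) :
    ev hc Q l ∈ Lc k p n := by
  rw [ev_apply hc Q (Nat.lt_succ_self _)]
  refine Submodule.sum_mem _ fun j _ => ?_
  exact stab_aeval p hφ _ ((hψ.pow j).mem_Lc p hl)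

theorem cham (p : ℕ) [Fact p.Prime] [CharP k p] {φ ψ : k⟦X⟧ →ₐ[k] k⟦X⟧} (hφ : Wild φ)
    (hψ : Wild ψ) (hc : φ * ψ = ψ * φ) {r n : ℕ} (t : Fin r → k⟦X⟧)
    (hg : ∀ f : k⟦X⟧, ∃ q : Fin r → Polynomial k,
      f - ∑ i, (Polynomial.aeval (φ.toLinearMap : Module.End k k⟦X⟧) (q i)) (t i)
        ∈ Lc k p n) :
    ∃ (M : ℕ) (μ : ℕ → ℕ → k), 0 < M ∧ (∀ i, μ i r = if i = 0 then 1 else 0) ∧
      ∀ f : k⟦X⟧, ∑ i ∈ Finset.range M, ∑ j ∈ Finset.range (r + 1),
        μ i j • (φ ^ i * ψ ^ j) f ∈ Lc k p n := by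
  classical
  choose q hq using hg
  let c : Matrix (Fin r) (Fin r) (Polynomial k) := fun i j => q (ψ (t i)) j
  let P : Polynomial (Polynomial k) := c.charpoly
  have hPm : P.Monic := c.charpoly_monic
  have hPd : P.natDegree = r := by
    have h := c.charpoly_natDegree_eq_dim
    rwa [Fintype.card_fin] at h
  have hrow : ∀ i, ∑ j, ev hc (c.charmatrix i j) (t j) ∈ Lc k p n := by
    intro i
    have h1 : ∑ j, ev hc (c.charmatrix i j) (t j) =
        ψ (t i) - ∑ j, (Polynomial.aeval (φ.toLinearMap : Module.End k k⟦X⟧) (q (ψ (t i)) j)) (t j) := by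
      have h2 : ∀ j, ev hc (c.charmatrix i j) (t j) = (if i = j then ψ (t j) else 0) -
          (Polynomial.aeval (φ.toLinearMap : Module.End k k⟦X⟧) (q (ψ (t i)) j)) (t j) := by
        intro j
        by_cases hij : i = j
        · subst hij
          rw [Matrix.charmatrix_apply_eq, map_sub, ev_X, ev_C, LinearMap.sub_apply, if_pos rfl]
          rfl
        · rw [Matrix.charmatrix_apply_ne _ _ _ hij, map_neg, ev_C, LinearMap.neg_apply,
            if_neg hij, zero_sub]
      rw [Finset.sum_congr rfl fun j _ => h2 j, Finset.sum_sub_distrib,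
        Finset.sum_ite_eq, if_pos (Finset.mem_univ i)]
    rw [h1]
    exact hq (ψ (t i))
  have hPt : ∀ i, ev hc P (t i) ∈ Lc k p n := by
    intro i
    have h1 := congrFun (congrFun (Matrix.adjugate_mul c.charmatrix) i)
    have h2 : ev hc P (t i) = ∑ a, ev hc (c.charmatrix.adjugate i a)
        (∑ j, ev hc (c.charmatrix a j) (t j)) := by
      have h3 : ∑ a, ev hc (c.charmatrix.adjugate i a) (∑ j, ev hc (c.charmatrix a j) (t j)) =
          ∑ j, ev hc ((c.charmatrix.adjugate * c.charmatrix) i j) (t j) := by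
        have h4 : ∀ a, ev hc (c.charmatrix.adjugate i a) (∑ j, ev hc (c.charmatrix a j) (t j)) =
            ∑ j, (ev hc (c.charmatrix.adjugate i a * c.charmatrix a j)) (t j) := by
          intro a
          rw [map_sum]
          refine Finset.sum_congr rfl fun j _ => ?_
          rw [map_mul, Module.End.mul_apply]
        rw [Finset.sum_congr rfl fun a _ => h4 a, Finset.sum_comm]
        refine Finset.sum_congr rfl fun j _ => ?_
        rw [Matrix.mul_apply, map_sum, LinearMap.sum_apply]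
      rw [h3, Matrix.adjugate_mul]
      have h5 : ∀ j, ev hc ((c.charmatrix.det • (1 : Matrix (Fin r) (Fin r) _)) i j) (t j) =
          if i = j then ev hc P (t j) else 0 := by
        intro j
        rw [Matrix.smul_apply, smul_eq_mul]
        by_cases hij : i = j
        · subst hij
          rw [Matrix.one_apply_eq, mul_one, if_pos rfl]
          rfl
        · rw [Matrix.one_apply_ne hij, mul_zero, map_zero, if_neg hij]
          rfl
      rw [Finset.sum_congr rfl fun j _ => h5 j, Finset.sum_ite_eq, if_pos (Finset.mem_univ i)]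
    rw [h2]
    exact Submodule.sum_mem _ fun a _ => stab_ev p hφ hψ hc _ (hrow a)
  have hPf : ∀ f, ev hc P f ∈ Lc k p n := by
    intro f
    have h1 : ev hc P f = ev hc P (f - ∑ i,
        (Polynomial.aeval (φ.toLinearMap : Module.End k k⟦X⟧) (q f i)) (t i)) +
        ∑ i, (Polynomial.aeval (φ.toLinearMap : Module.End k k⟦X⟧) (q f i)) (ev hc P (t i)) := by
      have h2 : ∀ i, (Polynomial.aeval (φ.toLinearMap : Module.End k k⟦X⟧) (q f i)) (ev hc P (t i)) =
          ev hc P ((Polynomial.aeval (φ.toLinearMap : Module.End k k⟦X⟧) (q f i)) (t i)) := by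
        intro i
        rw [← ev_C hc, ← Module.End.mul_apply, ← map_mul, mul_comm, map_mul, Module.End.mul_apply]
      rw [Finset.sum_congr rfl fun i _ => h2 i, map_sub, map_sum, sub_add_cancel]
    rw [h1]
    exact Submodule.add_mem _ (stab_ev p hφ hψ hc _ (hq f))
      (Submodule.sum_mem _ fun i _ => stab_aeval p hφ _ (hPt i))
  let M : ℕ := (Finset.range (r + 1)).sup (fun j => (P.coeff j).natDegree) + 1
  have hM : ∀ j ∈ Finset.range (r + 1), (P.coeff j).natDegree < M := by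
    intro j hj
    exact Nat.lt_succ_of_le (Finset.le_sup (f := fun j => (P.coeff j).natDegree) hj)
  refine ⟨M, fun i j => (P.coeff j).coeff i, Nat.succ_pos _, ?_, ?_⟩
  · intro i
    have h1 : P.coeff r = 1 := by
      rw [← hPd]
      exact hPm.coeff_natDegree
    change (P.coeff r).coeff i = _
    rw [h1, Polynomial.coeff_one]
  · intro f
    have h1 : ∑ i ∈ Finset.range M, ∑ j ∈ Finset.range (r + 1),
        (P.coeff j).coeff i • (φ ^ i * ψ ^ j) f = ev hc P f := by
      rw [ev_apply hc P (r := r) (by omega), Finset.sum_comm]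
      refine Finset.sum_congr rfl fun j hj => ?_
      rw [Polynomial.aeval_eq_sum_range' (hM j hj), LinearMap.sum_apply]
      refine Finset.sum_congr rfl fun i _ => ?_
      rw [LinearMap.smul_apply, toLinearMap_pow_apply, AlgHom.mul_apply]
    rw [h1]
    exact hPf f

end Pool.Agent.H13.CH
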