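import Mathlib

/-!
# Chai's Hope, height three: the ramification half (definitions)

`k` is a field of characteristic `p`, `A = k⟦X⟧`.  All automorphisms are `k`-algebra
endomorphisms of `A` with `φ X ≡ X mod X ^ 2` (`Wild`).
-/

open PowerSeries

namespace Pool.Agent.H13.CH

variable {k : Type*} [Field k]

/-- `φ X ≡ X mod X ^ 2`. -/
def Wild (φ : k⟦X⟧ →ₐ[k] k⟦X⟧) : Prop := (X : k⟦X⟧) ^ 2 ∣ φ X - X

/-- `φ X = X (1 + X ^ i x)` with `x(0) ≠ 0`: the depth of `φ` is exactly `i`. -/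
def Dep (φ : k⟦X⟧ →ₐ[k] k⟦X⟧) (i : ℕ) : Prop :=
  ∃ x : k⟦X⟧, constantCoeff x ≠ 0 ∧ φ X = X * (1 + X ^ i * x)

/-- The series all of whose coefficients of index `i < n` prime to `p` vanish. -/
def Lc (k : Type*) [Field k] (p n : ℕ) : Submodule k k⟦X⟧ where
  carrier := {f | ∀ i, i < n → ¬ p ∣ i → coeff i f = 0}
  add_mem' := by
    intro a b ha hb i hi hp
    rw [map_add, ha i hi hp, hb i hi hp, add_zero]
  zero_mem' := by
    intro i _ _
    rw [map_zero]
  smul_mem' := by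
    intro c f hf i hi hp
    rw [coeff_smul, hf i hi hp, smul_zero]

theorem mem_Lc {p n : ℕ} {f : k⟦X⟧} :
    f ∈ Lc k p n ↔ ∀ i, i < n → ¬ p ∣ i → coeff i f = 0 := Iff.rfl

end Pool.Agent.H13.CH
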