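import Pool.Agent.H13.CH.Basic

/-!
PROOF.  Apply `h` to `X ^ (p l + 1)`: `(φ^i ψ^j) (X ^ (p l + 1)) = a ^ (p l + 1)`, whose derivative is
`a ^ (p l) * a'`; `mem_Lc_iff`.  Linear in the powers of `a ^ p`: `Polynomial.eval_eq_sum`.
-/

open PowerSeries

namespace Pool.Agent.H13.CH

variable {k : Type*} [Field k]

/-! ### DIFF: differentiation -/

theorem derivative_pow_mul_add_one (p : ℕ) [Fact p.Prime] [CharP k p] (a : k⟦X⟧) (l : ℕ) :
    d⁄dX k (a ^ (p * l + 1)) = d⁄dX k a * (a ^ p) ^ l := by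
  have h : a ^ (p * l + 1) = (a ^ l) ^ p * a := by ring
  rw [h, Derivation.leibniz, derivative_pow_char, smul_zero, add_zero, smul_eq_mul]
  ring

theorem diff (p : ℕ) [Fact p.Prime] [CharP k p] {φ ψ : k⟦X⟧ →ₐ[k] k⟦X⟧}
    {M r n : ℕ} {μ : ℕ → ℕ → k}
    (h : ∀ f : k⟦X⟧, ∑ i ∈ Finset.range M, ∑ j ∈ Finset.range (r + 1),
        μ i j • (φ ^ i * ψ ^ j) f ∈ Lc k p (n + 1)) (R : Polynomial k⟦X⟧) :
    X ^ n ∣ ∑ i ∈ Finset.range M, ∑ j ∈ Finset.range (r + 1),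
        μ i j • (d⁄dX k ((φ ^ i * ψ ^ j) X) * R.eval (((φ ^ i * ψ ^ j) X) ^ p)) := by
  have key : ∀ l : ℕ, X ^ n ∣ ∑ i ∈ Finset.range M, ∑ j ∈ Finset.range (r + 1),
      μ i j • (d⁄dX k ((φ ^ i * ψ ^ j) X) * (((φ ^ i * ψ ^ j) X) ^ p) ^ l) := by
    intro l
    have h1 := (mem_Lc_iff p).mp (h (X ^ (p * l + 1)))
    rw [map_sum] at h1
    simp_rw [map_sum, Derivation.map_smul, map_pow, derivative_pow_mul_add_one p] at h1
    exact h1
  have h2 : ∑ i ∈ Finset.range M, ∑ j ∈ Finset.range (r + 1),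
        μ i j • (d⁄dX k ((φ ^ i * ψ ^ j) X) * R.eval (((φ ^ i * ψ ^ j) X) ^ p)) =
      ∑ l ∈ R.support, R.coeff l * ∑ i ∈ Finset.range M, ∑ j ∈ Finset.range (r + 1),
        μ i j • (d⁄dX k ((φ ^ i * ψ ^ j) X) * (((φ ^ i * ψ ^ j) X) ^ p) ^ l) := by
    simp_rw [Finset.mul_sum]
    rw [Finset.sum_comm (s := R.support)]
    refine Finset.sum_congr rfl fun i _ => ?_
    rw [Finset.sum_comm (s := R.support)]
    refine Finset.sum_congr rfl fun j _ => ?_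
    rw [Polynomial.eval_eq_sum, Polynomial.sum_def, Finset.mul_sum, Finset.smul_sum]
    refine Finset.sum_congr rfl fun l _ => ?_
    rw [mul_smul_comm, mul_left_comm]
  rw [h2]
  exact Finset.dvd_sum fun l _ => Dvd.dvd.mul_left (key l) _

end Pool.Agent.H13.CH
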