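import Pool.Agent.H13.CH.Basic

/-!
PROOF (think 2411 (3)).  `φ X = X (1 + X ^ i₀ x)`, `φ^p X = X (1 + X ^ i₁ x')`.
For a map `θ X = X (1 + X ^ i x)`, `i ≥ 1`: `θ (X ^ b) - X ^ b = X ^ b ((1 + X ^ i x) ^ b - 1)` is divisible
by `X ^ (b + i)` with coefficient `b * x(0)` at `b + i`.
(a) `w ≢ i₀ mod p`: `g = X ^ (w - i₀)`.
(b) `w ≢ i₁ mod p`: `g = ∑ j < p, φ ^ j (X ^ (w - i₁))`, `φ g - g = φ ^ p (X ^ (w - i₁)) - X ^ (w - i₁)`.
(c) `w ≡ i₀ ≡ i₁`: `w = p l + p + i₁`, `x = ∏ j < p, φ ^ j X`, `g = X ^ (p l) * x`;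
`φ x * X = x * φ ^ p X`, so `φ x - x = x * X ^ i₁ * x'` has order `p + i₁`;
`φ g - g = X ^ (p l) (φ x - x) + (φ(X) ^ l - X ^ l) ^ p * φ x`, `φ(X)^l - X^l` is divisible by `X ^ (l + i₀)`,
`φ x = X ^ p + O(X ^ (p + i₀))`, so the second term is a `p`-th power plus `O(X ^ (p l + p + (p + 1) i₀))`,
and `i₁ < (p + 1) i₀`.  (`i₁ ≥ 1` follows from `Wild`: `φ` wild by `h0`, `hi`, so `φ ^ p` is wild.)
-/

open PowerSeries

namespace Pool.Agent.H13.CH

variable {k : Type*} [Field k]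

namespace FGaux

/-- `(1 + y) ^ b = 1 + y s`, `s(0) = b` -/
theorem one_add_pow {y : k⟦X⟧} (hy : constantCoeff y = 0) (b : ℕ) :
    ∃ s : k⟦X⟧, (1 + y) ^ b = 1 + y * s ∧ constantCoeff s = (b : k) := by
  induction b with
  | zero => exact ⟨0, by rw [pow_zero, mul_zero, add_zero], by rw [map_zero, Nat.cast_zero]⟩
  | succ b ih =>
    obtain ⟨s, h1, h2⟩ := ih
    refine ⟨1 + s + y * s, ?_, ?_⟩
    · rw [pow_succ, h1]
      ring
    · rw [map_add, map_add, map_mul, hy, h2, map_one, zero_mul, add_zero, Nat.cast_succ]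
      ring

theorem pow_apply {θ : k⟦X⟧ →ₐ[k] k⟦X⟧} {i : ℕ} {x : k⟦X⟧} (hθ : θ X = X * (1 + X ^ i * x))
    (hi : 1 ≤ i) (b : ℕ) :
    ∃ v : k⟦X⟧, θ (X ^ b) - X ^ b = X ^ (b + i) * v ∧ constantCoeff v = (b : k) * constantCoeff x := by
  have hy : constantCoeff (X ^ i * x : k⟦X⟧) = 0 := by
    rw [map_mul, map_pow, constantCoeff_X, zero_pow (by omega), zero_mul]
  obtain ⟨s, h1, h2⟩ := one_add_pow hy b
  refine ⟨x * s, ?_, ?_⟩
  · rw [map_pow, hθ, mul_pow, h1, pow_add]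
    ring
  · rw [map_mul, h2, mul_comm]

theorem concl {p : ℕ} {f v : k⟦X⟧} {w : ℕ} (h : f = X ^ w * v) (hv : constantCoeff v ≠ 0) :
    f ∈ Lc k p w ∧ coeff w f ≠ 0 := by
  refine ⟨dvd_mem_Lc ⟨v, h⟩, ?_⟩
  have h1 := coeff_X_pow_mul v w 0
  rw [zero_add] at h1
  rw [h, h1, coeff_zero_eq_constantCoeff_apply]
  exact hv

theorem dvd_pow_apply {φ : k⟦X⟧ →ₐ[k] k⟦X⟧} {N : ℕ} (hX : (X : k⟦X⟧) ∣ φ X)
    (h : X ^ N ∣ φ X - X) (j : ℕ) : X ^ N ∣ (φ ^ j) X - X := by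
  induction j with
  | zero =>
    rw [pow_zero, AlgHom.one_apply, sub_self]
    exact dvd_zero _
  | succ j ih =>
    have h1 : (φ ^ (j + 1)) X - X = φ ((φ ^ j) X - X) + (φ X - X) := by
      rw [pow_succ', AlgHom.mul_apply, map_sub]
      ring
    rw [h1]
    exact dvd_add (X_pow_dvd_of_X_dvd hX ih) h

theorem prod_dvd {N : ℕ} (a : ℕ → k⟦X⟧) (h : ∀ j, X ^ (1 + N) ∣ a j - X) (n : ℕ) :
    X ^ (n + N) ∣ ∏ j ∈ Finset.range n, a j - X ^ n := by
  induction n with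
  | zero =>
    rw [Finset.prod_range_zero, pow_zero, sub_self]
    exact dvd_zero _
  | succ n ih =>
    have h1 : ∏ j ∈ Finset.range (n + 1), a j - (X : k⟦X⟧) ^ (n + 1) =
        (∏ j ∈ Finset.range n, a j - X ^ n) * a n + X ^ n * (a n - X) := by
      rw [Finset.prod_range_succ, pow_succ]
      ring
    rw [h1]
    have h2 : (X : k⟦X⟧) ∣ a n := by
      have h3 : (X : k⟦X⟧) ∣ a n - X := dvd_trans (dvd_pow_self X (by omega)) (h n)
      have h4 : a n = (a n - X) + X := by ring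
      rw [h4]
      exact dvd_add h3 (dvd_refl _)
    refine dvd_add ?_ ?_
    · have h5 : (X : k⟦X⟧) ^ (n + 1 + N) = X ^ (n + N) * X := by
        rw [← pow_succ]
        congr 1
        omega
      rw [h5]
      exact mul_dvd_mul ih h2
    · have h5 : (X : k⟦X⟧) ^ (n + 1 + N) = X ^ n * X ^ (1 + N) := by
        rw [← pow_add]
        congr 1
        omega
      rw [h5]
      exact mul_dvd_mul (dvd_refl _) (h n)

end FGaux

/-! ### FG: the leading exponents of `(φ - 1) A` modulo `p`-th powers -/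

theorem FG (p : ℕ) [Fact p.Prime] [CharP k p] {φ : k⟦X⟧ →ₐ[k] k⟦X⟧} {i₀ i₁ : ℕ}
    (h0 : Dep φ i₀) (h1 : Dep (φ ^ p) i₁) (hi : 1 ≤ i₀) (h : i₁ < (p + 1) * i₀) {w : ℕ}
    (hw : p + i₁ + i₀ ≤ w) (hpw : ¬ p ∣ w) :
    ∃ g : k⟦X⟧, φ g - g ∈ Lc k p w ∧ coeff w (φ g - g) ≠ 0 := by
  obtain ⟨x, hx0, hx⟩ := h0
  obtain ⟨x', hx0', hx'⟩ := h1
  have hd : X ^ (1 + i₀) ∣ φ X - X := by
    refine ⟨x, ?_⟩
    rw [hx, pow_add, pow_one]
    ring
  have hwi : Wild φ := dvd_trans (pow_dvd_pow X (by omega)) hd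
  have hi1 : 1 ≤ i₁ := by
    by_contra hc
    have hc0 : i₁ = 0 := by omega
    have h2 : (X : k⟦X⟧) ^ 2 ∣ (φ ^ p) X - X := hwi.pow p
    rw [X_pow_dvd_iff] at h2
    have h3 := h2 1 (by omega)
    rw [hx', hc0, pow_zero, one_mul, mul_add, mul_one, add_sub_cancel_left] at h3
    have h4 := coeff_succ_X_mul 0 x'
    rw [zero_add] at h4
    rw [h4, coeff_zero_eq_constantCoeff_apply] at h3
    exact hx0' h3
  have hcast : ∀ b : ℕ, ¬ p ∣ b → (b : k) ≠ 0 := by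
    intro b hb hb0
    exact hb ((CharP.cast_eq_zero_iff k p b).1 hb0)
  by_cases ha : p ∣ w - i₀
  swap
  · -- case (a)
    obtain ⟨v, hv, hv0⟩ := FGaux.pow_apply hx hi (w - i₀)
    refine ⟨X ^ (w - i₀), FGaux.concl (v := v) ?_ ?_⟩
    · rw [hv, Nat.sub_add_cancel (by omega)]
    · rw [hv0]
      exact mul_ne_zero (hcast _ ha) hx0
  by_cases hb : p ∣ w - i₁
  swap
  · -- case (b)
    obtain ⟨v, hv, hv0⟩ := FGaux.pow_apply hx' hi1 (w - i₁)
    refine ⟨∑ j ∈ Finset.range p, (φ ^ j) (X ^ (w - i₁)), FGaux.concl (v := v) ?_ ?_⟩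
    · have h2 : φ (∑ j ∈ Finset.range p, (φ ^ j) (X ^ (w - i₁))) -
          ∑ j ∈ Finset.range p, (φ ^ j) (X ^ (w - i₁)) =
          (φ ^ p) (X ^ (w - i₁)) - X ^ (w - i₁) := by
        rw [map_sum, ← Finset.sum_sub_distrib]
        have h3 := Finset.sum_range_sub (fun j => (φ ^ j) ((X : k⟦X⟧) ^ (w - i₁))) p
        rw [pow_zero, AlgHom.one_apply] at h3
        rw [← h3]
        refine Finset.sum_congr rfl fun j _ => ?_
        rw [pow_succ', AlgHom.mul_apply]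
      rw [h2, hv, Nat.sub_add_cancel (by omega)]
    · rw [hv0]
      exact mul_ne_zero (hcast _ hb) hx0'
  -- case (c)
  have hp : 0 < p := (Fact.out : p.Prime).pos
  obtain ⟨l, hl⟩ : ∃ l, w = p * l + p + i₁ := by
    obtain ⟨m, hm⟩ := hb
    have hm0 : m ≠ 0 := by
      rintro rfl
      rw [mul_zero] at hm
      omega
    obtain ⟨l, rfl⟩ := Nat.exists_eq_succ_of_ne_zero hm0
    refine ⟨l, ?_⟩
    have h3 : p * l.succ = p * l + p := by
      rw [Nat.succ_eq_add_one]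
      ring
    omega
  -- the norm
  have hN : ∃ y : k⟦X⟧, ∏ j ∈ Finset.range p, (φ ^ j) X = X ^ p + X ^ (p + i₀) * y := by
    obtain ⟨y, hy⟩ := FGaux.prod_dvd (N := i₀) (fun j => (φ ^ j) X)
      (fun j => FGaux.dvd_pow_apply hwi.X_dvd hd j) p
    exact ⟨y, by linear_combination hy⟩
  have hN' : ∃ y : k⟦X⟧, φ (∏ j ∈ Finset.range p, (φ ^ j) X) = X ^ p + X ^ (p + i₀) * y := by
    obtain ⟨y, hy⟩ := FGaux.prod_dvd (N := i₀) (fun j => (φ ^ (j + 1)) X)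
      (fun j => FGaux.dvd_pow_apply hwi.X_dvd hd (j + 1)) p
    refine ⟨y, ?_⟩
    have h2 : φ (∏ j ∈ Finset.range p, (φ ^ j) X) = ∏ j ∈ Finset.range p, (φ ^ (j + 1)) X := by
      rw [map_prod]
      refine Finset.prod_congr rfl fun j _ => ?_
      rw [pow_succ', AlgHom.mul_apply]
    rw [h2]
    linear_combination hy
  have hrel : φ (∏ j ∈ Finset.range p, (φ ^ j) X) =
      (∏ j ∈ Finset.range p, (φ ^ j) X) * (1 + X ^ i₁ * x') := by
    have h2 : φ (∏ j ∈ Finset.range p, (φ ^ j) X) * X =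
        (∏ j ∈ Finset.range p, (φ ^ j) X) * (φ ^ p) X := by
      have h3 : φ (∏ j ∈ Finset.range p, (φ ^ j) X) = ∏ j ∈ Finset.range p, (φ ^ (j + 1)) X := by
        rw [map_prod]
        refine Finset.prod_congr rfl fun j _ => ?_
        rw [pow_succ', AlgHom.mul_apply]
      have h4 := Finset.prod_range_succ' (fun j => (φ ^ j) (X : k⟦X⟧)) p
      rw [Finset.prod_range_succ, pow_zero, AlgHom.one_apply] at h4
      rw [h3, ← h4]
    rw [hx'] at h2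
    have h3 : X * φ (∏ j ∈ Finset.range p, (φ ^ j) X) =
        X * ((∏ j ∈ Finset.range p, (φ ^ j) X) * (1 + X ^ i₁ * x')) := by
      linear_combination h2
    exact mul_left_cancel₀ X_ne_zero h3
  obtain ⟨y, hy⟩ := hN
  obtain ⟨y', hy'⟩ := hN'
  obtain ⟨v, hv, -⟩ := FGaux.pow_apply hx hi l
  have hchar : CharP k⟦X⟧ p := charP_of_injective_algebraMap (algebraMap k k⟦X⟧).injective p
  have hpow : (φ X) ^ (p * l) - X ^ (p * l) = (X ^ (l + i₀) * v) ^ p := by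
    rw [← hv, map_pow, sub_pow_char, ← pow_mul, ← pow_mul, mul_comm l p]
  refine ⟨X ^ (p * l) * ∏ j ∈ Finset.range p, (φ ^ j) X, ?_⟩
  have hmain : φ (X ^ (p * l) * ∏ j ∈ Finset.range p, (φ ^ j) X) -
      X ^ (p * l) * ∏ j ∈ Finset.range p, (φ ^ j) X =
      X ^ w * ((1 + X ^ i₀ * y) * x') + (X ^ (l + i₀ + 1) * v) ^ p +
        X ^ (p * l + p * i₀ + p + i₀) * (v ^ p * y') := by
    have e1 : φ (X ^ (p * l) * ∏ j ∈ Finset.range p, (φ ^ j) X) -
        X ^ (p * l) * ∏ j ∈ Finset.range p, (φ ^ j) X =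
        X ^ (p * l) * (φ (∏ j ∈ Finset.range p, (φ ^ j) X) - ∏ j ∈ Finset.range p, (φ ^ j) X) +
        ((φ X) ^ (p * l) - X ^ (p * l)) * φ (∏ j ∈ Finset.range p, (φ ^ j) X) := by
      rw [map_mul, map_pow]
      ring
    have e2 : φ (∏ j ∈ Finset.range p, (φ ^ j) X) - ∏ j ∈ Finset.range p, (φ ^ j) X =
        (X ^ p + X ^ (p + i₀) * y) * (X ^ i₁ * x') := by
      rw [hrel, hy]
      ring
    rw [e1, e2, hpow, hy', hl]
    ring
  rw [hmain]
  have hlt : w < p * l + p * i₀ + p + i₀ := by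
    have h3 : (p + 1) * i₀ = p * i₀ + i₀ := by ring
    omega
  constructor
  · refine Submodule.add_mem _ (Submodule.add_mem _ (dvd_mem_Lc (dvd_mul_right _ _))
      (pow_mem_Lc p w _)) (dvd_mem_Lc (dvd_mul_of_dvd_left (pow_dvd_pow X hlt.le) _))
  · have h3 : coeff w (X ^ w * ((1 + X ^ i₀ * y) * x')) = constantCoeff x' := by
      have h4 := coeff_X_pow_mul ((1 + X ^ i₀ * y) * x') w 0
      rw [zero_add] at h4
      rw [h4, coeff_zero_eq_constantCoeff_apply, map_mul, map_add, map_mul, map_pow,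
        constantCoeff_X, zero_pow (by omega), zero_mul, map_one, add_zero, one_mul]
    have h5 : coeff w ((X ^ (l + i₀ + 1) * v) ^ p) = 0 :=
      pow_mem_Lc p (w + 1) (X ^ (l + i₀ + 1) * v) w (Nat.lt_succ_self w) hpw
    have h6 : coeff w (X ^ (p * l + p * i₀ + p + i₀) * (v ^ p * y')) = 0 :=
      X_pow_dvd_iff.1 (dvd_mul_right _ _) w hlt
    rw [map_add, map_add, h3, h5, h6, add_zero, add_zero]
    exact hx0'

end Pool.Agent.H13.CH
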