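import Pool.Agent.H13.CH.Basic

/-!
PROOF (think 2411 (5)).  `z x = (a x) ^ p`, `d x y = order (a x - a y) < N` for `x ≠ y`.
`R = ∏ y ≠ x₀, (Z - C (z y)) ^ (e y)`, `e y = K ^ (N - d x₀ y)`, `K = N * D + 1`, `e = ∑ y ≠ x₀, p * d x₀ y * e y`.
`b ≡ a x mod X ^ N`: `b ^ p - (a y) ^ p = (b - a y) ^ p`.  For `x = x₀` every factor `b - a y` has order exactly
`d x₀ y` and the same leading coefficient as `a x₀ - a y`.  For `x ≠ x₀`: the factor `y = x` has order `≥ N`, the
factor `y` has order `≥ min (d x₀ x) (d x₀ y)`: the gain `(N - d x₀ x) e x ≥ e x` beats the loss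
`∑ over y with d x₀ y > d x₀ x of (d x₀ y - d x₀ x) e y ≤ D * N * K ^ (N - d x₀ x - 1) < e x`.
`E = p * N * D * K ^ N`.
-/

open PowerSeries

namespace Pool.Agent.H13.CH

variable {k : Type*} [Field k]

namespace Sepaux

theorem factor (N : ℕ) (f : k⟦X⟧) (h : ¬ X ^ N ∣ f) :
    ∃ (d : ℕ) (u : k⟦X⟧), d < N ∧ f = X ^ d * u ∧ constantCoeff u ≠ 0 := by
  induction N with
  | zero =>
    exfalso
    apply h
    rw [pow_zero]
    exact one_dvd _
  | succ N ih =>
    by_cases h1 : X ^ N ∣ f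
    · obtain ⟨u, hu⟩ := h1
      refine ⟨N, u, Nat.lt_succ_self N, hu, ?_⟩
      intro h0
      apply h
      rw [← X_dvd_iff] at h0
      obtain ⟨v, hv⟩ := h0
      exact ⟨v, by rw [hu, hv, pow_succ]; ring⟩
    · obtain ⟨d, u, hd, h2, h3⟩ := ih h1
      exact ⟨d, u, by omega, h2, h3⟩

theorem charP (p : ℕ) [CharP k p] : CharP k⟦X⟧ p :=
  charP_of_injective_algebraMap (algebraMap k k⟦X⟧).injective p

theorem eval_prod (p : ℕ) [Fact p.Prime] [CharP k p] {ι : Type} (S : Finset ι) (a : ι → k⟦X⟧)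
    (e : ι → ℕ) (b : k⟦X⟧) :
    (∏ y ∈ S, (Polynomial.X - Polynomial.C ((a y) ^ p)) ^ e y).eval (b ^ p) =
      ∏ y ∈ S, (b - a y) ^ (p * e y) := by
  have := charP (k := k) p
  rw [Polynomial.eval_prod]
  apply Finset.prod_congr rfl
  intro y _
  rw [Polynomial.eval_pow, Polynomial.eval_sub, Polynomial.eval_X, Polynomial.eval_C,
    ← sub_pow_char, pow_mul]

theorem gain {ι : Type} [DecidableEq ι] (S : Finset ι) (N D K : ℕ) (hK : K = N * D + 1)
    (hS : S.card ≤ D) (d : ι → ℕ) (hd : ∀ y ∈ S, d y < N) (x : ι) (hx : x ∈ S) :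
    (∑ y ∈ S, d y * K ^ (N - d y)) + 1 ≤
      ∑ y ∈ S, (if y = x then N else min (d y) (d x)) * K ^ (N - d y) := by
  have hK1 : 1 ≤ K := by omega
  rw [← Finset.add_sum_erase S (fun y => d y * K ^ (N - d y)) hx,
    ← Finset.add_sum_erase S (fun y => (if y = x then N else min (d y) (d x)) * K ^ (N - d y)) hx]
  simp only [if_true]
  have h1 : ∀ y ∈ S.erase x, d y * K ^ (N - d y) ≤
      (if y = x then N else min (d y) (d x)) * K ^ (N - d y) + N * K ^ (N - d x - 1) := by
    intro y hy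
    have hyx := Finset.ne_of_mem_erase hy
    have hyS := Finset.mem_of_mem_erase hy
    rw [if_neg hyx]
    rcases le_or_gt (d y) (d x) with h | h
    · rw [min_eq_left h]
      exact Nat.le_add_right _ _
    · have h2 := hd y hyS
      have h3 : K ^ (N - d y) ≤ K ^ (N - d x - 1) := Nat.pow_le_pow_right hK1 (by omega)
      have h4 : d y * K ^ (N - d y) ≤ N * K ^ (N - d x - 1) := Nat.mul_le_mul h2.le h3
      exact le_trans h4 (Nat.le_add_left _ _)
  have h2 := Finset.sum_le_sum h1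
  rw [Finset.sum_add_distrib, Finset.sum_const, smul_eq_mul] at h2
  have h3 : (S.erase x).card ≤ D := le_trans (Finset.card_erase_le) hS
  have h4 : (S.erase x).card * (N * K ^ (N - d x - 1)) ≤ D * (N * K ^ (N - d x - 1)) :=
    Nat.mul_le_mul_right _ h3
  have hdx := hd x hx
  have h5 : K ^ (N - d x) = K * K ^ (N - d x - 1) := by
    rw [← pow_succ']
    congr 1
    omega
  have h6 : 1 ≤ K ^ (N - d x - 1) := Nat.one_le_pow _ _ hK1
  have h7 : K * K ^ (N - d x - 1) = D * (N * K ^ (N - d x - 1)) + K ^ (N - d x - 1) := by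
    rw [hK]
    ring
  have h8 : (d x + 1) * K ^ (N - d x) ≤ N * K ^ (N - d x) := Nat.mul_le_mul_right _ hdx
  have h9 : (d x + 1) * K ^ (N - d x) = d x * K ^ (N - d x) + K ^ (N - d x) := by ring
  omega

end Sepaux

/-! ### SEP: separation of balls.  `E` depends only on `N` and the number `D` of balls. -/

theorem sep (p : ℕ) [Fact p.Prime] [CharP k p] (N D : ℕ) : ∃ E : ℕ, ∀ (ι : Type) [Fintype ι],
    Fintype.card ι ≤ D → ∀ a : ι → k⟦X⟧, (∀ x y, x ≠ y → ¬ X ^ N ∣ a x - a y) → ∀ x₀ : ι,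
    ∃ (R : Polynomial k⟦X⟧) (e : ℕ) (c : k), e ≤ E ∧ c ≠ 0 ∧ ∀ (x : ι) (b : k⟦X⟧),
      X ^ N ∣ b - a x →
        ((x = x₀ → X ^ (e + 1) ∣ R.eval (b ^ p) - X ^ e * C c) ∧
          (x ≠ x₀ → X ^ (e + 1) ∣ R.eval (b ^ p))) := by
  refine ⟨p * N * D * (N * D + 1) ^ N, ?_⟩
  intro ι _ hcard a hsep x₀
  classical
  have hp1 : 1 ≤ p := (Fact.out : p.Prime).one_lt.le
  have hfac : ∀ y, ∃ (d : ℕ) (u : k⟦X⟧), y ≠ x₀ →
      d < N ∧ a x₀ - a y = X ^ d * u ∧ constantCoeff u ≠ 0 := by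
    intro y
    by_cases hy : y = x₀
    · exact ⟨0, 0, fun h => absurd hy h⟩
    · obtain ⟨d, u, h1, h2, h3⟩ := Sepaux.factor N (a x₀ - a y) (hsep x₀ y (Ne.symm hy))
      exact ⟨d, u, fun _ => ⟨h1, h2, h3⟩⟩
  choose d u hdu using hfac
  obtain ⟨K, hK⟩ : ∃ K, K = N * D + 1 := ⟨_, rfl⟩
  have hK1 : 1 ≤ K := by omega
  rw [← hK]
  obtain ⟨S, hS⟩ : ∃ S : Finset ι, S = Finset.univ.erase x₀ := ⟨_, rfl⟩
  have hSmem : ∀ y, y ∈ S ↔ y ≠ x₀ := by
    intro y
    rw [hS, Finset.mem_erase]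
    exact ⟨fun h => h.1, fun h => ⟨h, Finset.mem_univ y⟩⟩
  have hScard : S.card ≤ D := by
    rw [hS]
    exact le_trans Finset.card_erase_le hcard
  refine ⟨∏ y ∈ S, (Polynomial.X - Polynomial.C ((a y) ^ p)) ^ (K ^ (N - d y)),
    ∑ y ∈ S, d y * (p * K ^ (N - d y)), ∏ y ∈ S, constantCoeff (u y) ^ (p * K ^ (N - d y)), ?_, ?_, ?_⟩
  · have h1 : ∀ y ∈ S, d y * (p * K ^ (N - d y)) ≤ N * (p * K ^ N) := by
      intro y hy
      have h2 := (hdu y ((hSmem y).mp hy)).1
      exact Nat.mul_le_mul h2.le (Nat.mul_le_mul_left _ (Nat.pow_le_pow_right hK1 (Nat.sub_le _ _)))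
    have h2 := Finset.sum_le_card_nsmul S _ _ h1
    rw [smul_eq_mul] at h2
    refine le_trans h2 (le_trans (Nat.mul_le_mul_right _ hScard) (le_of_eq ?_))
    ring
  · rw [Finset.prod_ne_zero_iff]
    intro y hy
    exact pow_ne_zero _ (hdu y ((hSmem y).mp hy)).2.2
  · intro x b hb
    rw [Sepaux.eval_prod p S a (fun y => K ^ (N - d y)) b]
    constructor
    · intro hx
      rw [hx] at hb
      obtain ⟨v, hv⟩ := hb
      have h1 : ∀ y ∈ S, (b - a y) ^ (p * K ^ (N - d y)) = X ^ (d y * (p * K ^ (N - d y))) *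
          (u y + X ^ (N - d y) * v) ^ (p * K ^ (N - d y)) := by
        intro y hy
        obtain ⟨h2, h3, _⟩ := hdu y ((hSmem y).mp hy)
        have h4 : b - a y = X ^ (d y) * (u y + X ^ (N - d y) * v) := by
          have h5 : (X : k⟦X⟧) ^ N = X ^ (d y) * X ^ (N - d y) := by
            rw [← pow_add]
            congr 1
            omega
          rw [mul_add, ← h3, ← mul_assoc, ← h5, ← hv]
          ring
        rw [h4, mul_pow, ← pow_mul]
      rw [Finset.prod_congr rfl h1, Finset.prod_mul_distrib, Finset.prod_pow_eq_pow_sum, ← mul_sub,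
        pow_succ]
      apply mul_dvd_mul_left
      rw [X_dvd_iff, map_sub, constantCoeff_C, map_prod, sub_eq_zero]
      apply Finset.prod_congr rfl
      intro y hy
      obtain ⟨h2, _, _⟩ := hdu y ((hSmem y).mp hy)
      rw [map_pow, map_add, map_mul, map_pow, constantCoeff_X, zero_pow (by omega), zero_mul,
        add_zero]
    · intro hx
      have hxS := (hSmem x).mpr hx
      have h1 : ∀ y ∈ S, X ^ ((if y = x then N else min (d y) (d x)) * (p * K ^ (N - d y))) ∣
          (b - a y) ^ (p * K ^ (N - d y)) := by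
        intro y hy
        rw [pow_mul]
        apply pow_dvd_pow_of_dvd
        by_cases hyx : y = x
        · rw [if_pos hyx, hyx]
          exact hb
        · rw [if_neg hyx]
          have h2 := (hdu y ((hSmem y).mp hy)).2.1
          have h3 := hdu x hx
          have h4 : b - a y = (b - a x) - (a x₀ - a x) + (a x₀ - a y) := by ring
          rw [h4]
          refine dvd_add (dvd_sub ?_ ?_) ?_
          · exact dvd_trans (pow_dvd_pow _ (le_trans (min_le_right _ _) h3.1.le)) hb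
          · rw [h3.2.1]
            exact Dvd.dvd.mul_right (pow_dvd_pow _ (min_le_right _ _)) _
          · rw [h2]
            exact Dvd.dvd.mul_right (pow_dvd_pow _ (min_le_left _ _)) _
      have h2 := Finset.prod_dvd_prod_of_dvd _ _ h1
      rw [Finset.prod_pow_eq_pow_sum] at h2
      refine dvd_trans (pow_dvd_pow _ ?_) h2
      have h3 := Sepaux.gain S N D K hK hScard d (fun y hy => (hdu y ((hSmem y).mp hy)).1) x hxS
      have h4 : ∑ y ∈ S, d y * (p * K ^ (N - d y)) = p * ∑ y ∈ S, d y * K ^ (N - d y) := by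
        rw [Finset.mul_sum]
        apply Finset.sum_congr rfl
        intro y _
        ring
      have h5 : ∑ y ∈ S, (if y = x then N else min (d y) (d x)) * (p * K ^ (N - d y)) =
          p * ∑ y ∈ S, (if y = x then N else min (d y) (d x)) * K ^ (N - d y) := by
        rw [Finset.mul_sum]
        apply Finset.sum_congr rfl
        intro y _
        ring
      rw [h4, h5]
      refine le_trans ?_ (Nat.mul_le_mul_left p h3)
      rw [mul_add, mul_one]
      omega

end Pool.Agent.H13.CH
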