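import Pool.Agent.H13.CH.Diff
import Pool.Agent.H13.CH.Sep

/-!
PROOF.  Choose in this order: `s` with `r < p ^ s`; `N` from `hND s`; `a ≥ s` with `N ≤ p ^ a`; the classes of
pairs `(i, j)` under `X ^ N ∣ a i j - a i' j'` (`a i j = (φ ^ i * ψ ^ j) X`) depend only on `(i mod p ^ a, j mod p ^ a)`
(`Wild.pow_prime_pow`), `D = p ^ a * p ^ a`; `E` from `sep p N D`; `n = E + 1`; `μ` from `hP (n + 1)`.
For a class `x₀`: `diff` with the polynomial of `sep` and `a' = 1 + O(X)` give `∑ of μ i j over the class = 0`.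
Two members of a class satisfy `i ≡ i'`, `j ≡ j' mod p ^ s` (`hND` for `(i + M p ^ a - i', ..)`), so the sum of
`μ i j` over `i ≡ 0`, `j ≡ r mod p ^ s` vanishes too; `j ≤ r < p ^ s` gives `j = r` and this sum is `μ 0 r = 1`.
(`r = 0`: fine too.)
-/

open PowerSeries

namespace Pool.Agent.H13.CH

variable {k : Type*} [Field k]

/-! ### FIN: the contradiction -/

private theorem cmul {φ ψ : k⟦X⟧ →ₐ[k] k⟦X⟧} (hc : φ * ψ = ψ * φ) (i j u v : ℕ) :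
    (φ ^ i * ψ ^ j) * (φ ^ u * ψ ^ v) = φ ^ (i + u) * ψ ^ (j + v) := by
  have h : ψ ^ j * φ ^ u = φ ^ u * ψ ^ j :=
    ((Commute.pow_pow (show Commute φ ψ from hc) u j).eq).symm
  rw [pow_add, pow_add, mul_assoc, ← mul_assoc (ψ ^ j), h, mul_assoc, mul_assoc]

private theorem cmul_apply {φ ψ : k⟦X⟧ →ₐ[k] k⟦X⟧} (hc : φ * ψ = ψ * φ) (i j u v : ℕ)
    (f : k⟦X⟧) :
    (φ ^ i * ψ ^ j) ((φ ^ u * ψ ^ v) f) = (φ ^ (i + u) * ψ ^ (j + v)) f := by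
  rw [← AlgHom.mul_apply, cmul hc]

private theorem per (p : ℕ) [Fact p.Prime] [CharP k p] {φ ψ : k⟦X⟧ →ₐ[k] k⟦X⟧} (hφ : Wild φ)
    (hψ : Wild ψ) {a N : ℕ} (ha : N ≤ p ^ a) (i j : ℕ) (f : k⟦X⟧) :
    X ^ N ∣ (φ ^ (p ^ a * i) * ψ ^ (p ^ a * j)) f - f := by
  rw [mul_comm (p ^ a) i, mul_comm (p ^ a) j, pow_mul, pow_mul, AlgHom.mul_apply]
  have h1 := (hφ.pow i).pow_prime_pow p ha (((ψ ^ j) ^ p ^ a) f)
  have h2 := (hψ.pow j).pow_prime_pow p ha f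
  have h3 := dvd_add h1 h2
  rwa [sub_add_sub_cancel] at h3

private theorem modq (p : ℕ) [Fact p.Prime] [CharP k p] {φ ψ : k⟦X⟧ →ₐ[k] k⟦X⟧} (hφ : Wild φ)
    (hψ : Wild ψ) (hc : φ * ψ = ψ * φ) {a N : ℕ} (ha : N ≤ p ^ a) (i j : ℕ) :
    X ^ N ∣ (φ ^ i * ψ ^ j) X - (φ ^ (i % p ^ a) * ψ ^ (j % p ^ a)) X := by
  have h1 : (φ ^ i * ψ ^ j) X = (φ ^ (i % p ^ a) * ψ ^ (j % p ^ a))
      ((φ ^ (p ^ a * (i / p ^ a)) * ψ ^ (p ^ a * (j / p ^ a))) X) := by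
    rw [cmul_apply hc, Nat.mod_add_div, Nat.mod_add_div]
  rw [h1, ← map_sub]
  exact ((hφ.pow _).mul (hψ.pow _)).dvd_apply (per p hφ hψ ha _ _ X)

private theorem ndr (p : ℕ) [Fact p.Prime] [CharP k p] {φ ψ : k⟦X⟧ →ₐ[k] k⟦X⟧} (hφ : Wild φ)
    (hψ : Wild ψ) (hc : φ * ψ = ψ * φ) {a N s : ℕ} (ha : N ≤ p ^ a) (hs : s ≤ a)
    (hN : ∀ i j : ℕ, X ^ N ∣ (φ ^ i * ψ ^ j) X - X → p ^ s ∣ i ∧ p ^ s ∣ j) {i j i' j' : ℕ}
    (h : X ^ N ∣ (φ ^ i * ψ ^ j) X - (φ ^ i' * ψ ^ j') X) :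
    i ≡ i' [MOD p ^ s] ∧ j ≡ j' [MOD p ^ s] := by
  have hq : 0 < p ^ a := pow_pos (Fact.out : p.Prime).pos a
  have hd : p ^ s ∣ p ^ a := pow_dvd_pow p hs
  have h1 := ((hφ.pow ((p ^ a - 1) * i')).mul (hψ.pow ((p ^ a - 1) * j'))).dvd_apply h
  rw [map_sub, cmul_apply hc, cmul_apply hc] at h1
  have key : ∀ x : ℕ, (p ^ a - 1) * x + x = p ^ a * x := by
    intro x
    obtain ⟨m, hm⟩ := Nat.exists_eq_succ_of_ne_zero hq.ne'
    rw [hm, Nat.succ_sub_one, Nat.succ_mul]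
  rw [key, key] at h1
  have h2 := dvd_add h1 (per p hφ hψ ha i' j' X)
  rw [sub_add_sub_cancel] at h2
  obtain ⟨h3, h4⟩ := hN _ _ h2
  have fin : ∀ x x' : ℕ, p ^ s ∣ (p ^ a - 1) * x' + x → x ≡ x' [MOD p ^ s] := by
    intro x x' hx
    have e1 : (p ^ a - 1) * x' + x + x' = p ^ a * x' + x := by
      have := key x'
      omega
    have e2 : (p ^ a - 1) * x' + x + x' ≡ 0 + x' [MOD p ^ s] :=
      Nat.ModEq.add_right x' ((Nat.modEq_zero_iff_dvd).2 hx)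
    have e3 : p ^ a * x' + x ≡ 0 + x [MOD p ^ s] :=
      Nat.ModEq.add_right x ((Nat.modEq_zero_iff_dvd).2 (dvd_mul_of_dvd_left hd x'))
    rw [e1, zero_add] at e2
    rw [zero_add] at e3
    exact e3.symm.trans e2
  exact ⟨fin i i' h3, fin j j' h4⟩

private theorem der_wild {φ : k⟦X⟧ →ₐ[k] k⟦X⟧} (h : Wild φ) :
    (X : k⟦X⟧) ∣ d⁄dX k (φ X) - 1 := by
  obtain ⟨y, hy⟩ := h
  have h1 : φ X = X + X ^ 2 * y := by linear_combination hy
  rw [h1, map_add, derivative_X, add_sub_cancel_left, Derivation.leibniz, Derivation.leibniz_pow,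
    derivative_X, smul_eq_mul, smul_eq_mul]
  refine dvd_add (Dvd.dvd.mul_right (dvd_pow_self X two_ne_zero) _) (Dvd.dvd.mul_left ?_ _)
  rw [nsmul_eq_mul, smul_eq_mul, mul_one]
  exact Dvd.dvd.mul_left (dvd_pow_self X one_ne_zero) _

theorem fin_contra (p : ℕ) [Fact p.Prime] [CharP k p] {φ ψ : k⟦X⟧ →ₐ[k] k⟦X⟧} (hφ : Wild φ)
    (hψ : Wild ψ) (hc : φ * ψ = ψ * φ) {r : ℕ}
    (hND : ∀ s : ℕ, ∃ N : ℕ, ∀ i j : ℕ, X ^ N ∣ (φ ^ i * ψ ^ j) X - X → p ^ s ∣ i ∧ p ^ s ∣ j)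
    (hP : ∀ n : ℕ, ∃ (M : ℕ) (μ : ℕ → ℕ → k), 0 < M ∧ (∀ i, μ i r = if i = 0 then 1 else 0) ∧
      ∀ f : k⟦X⟧, ∑ i ∈ Finset.range M, ∑ j ∈ Finset.range (r + 1),
        μ i j • (φ ^ i * ψ ^ j) f ∈ Lc k p n) : False := by
  classical
  have hp : p.Prime := Fact.out
  have hs : r < p ^ r := Nat.lt_pow_self hp.one_lt
  obtain ⟨N, hN⟩ := hND r
  obtain ⟨a, ha⟩ : ∃ a, a = max r N := ⟨_, rfl⟩
  have ha1 : N ≤ p ^ a := by
    have h1 : a < p ^ a := Nat.lt_pow_self hp.one_lt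
    have h2 : N ≤ a := by rw [ha]; exact le_max_right _ _
    omega
  have ha2 : r ≤ a := by rw [ha]; exact le_max_left _ _
  have hq0 : 0 < p ^ a := pow_pos hp.pos a
  let S : Setoid (Fin (p ^ a) × Fin (p ^ a)) :=
    { r := fun x y => X ^ N ∣ (φ ^ (x.1 : ℕ) * ψ ^ (x.2 : ℕ)) (X : k⟦X⟧) -
        (φ ^ (y.1 : ℕ) * ψ ^ (y.2 : ℕ)) X
      iseqv := ⟨fun x => by rw [sub_self]; exact dvd_zero _,
        fun {x y} h => by rw [← dvd_neg, neg_sub]; exact h,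
        fun {x y z} h h' => by
          have := dvd_add h h'
          rwa [sub_add_sub_cancel] at this⟩ }
  haveI : Fintype (Quotient S) := Fintype.ofFinite _
  have hcard : Fintype.card (Quotient S) ≤ p ^ a * p ^ a := by
    have h1 := Fintype.card_le_of_surjective (Quotient.mk S) Quotient.mk_surjective
    rwa [Fintype.card_prod, Fintype.card_fin] at h1
  obtain ⟨A, hA⟩ : ∃ A : Quotient S → k⟦X⟧, A = fun x =>
    (φ ^ (x.out.1 : ℕ) * ψ ^ (x.out.2 : ℕ)) (X : k⟦X⟧) := ⟨_, rfl⟩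
  have hA1 : ∀ x y, x ≠ y → ¬ X ^ N ∣ A x - A y := by
    intro x y hxy h
    apply hxy
    rw [← Quotient.out_eq x, ← Quotient.out_eq y]
    rw [hA] at h
    exact Quotient.sound h
  obtain ⟨E, hE⟩ := sep (k := k) p N (p ^ a * p ^ a)
  obtain ⟨M, μ, hM, hμ, hf⟩ := hP (E + 1 + 1)
  obtain ⟨cl, hcl⟩ : ∃ cl : ℕ → ℕ → Quotient S, cl = fun i j => Quotient.mk S
    (⟨i % p ^ a, Nat.mod_lt _ hq0⟩, ⟨j % p ^ a, Nat.mod_lt _ hq0⟩) := ⟨_, rfl⟩
  have hcl1 : ∀ i j, X ^ N ∣ (φ ^ i * ψ ^ j) X - A (cl i j) := by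
    intro i j
    have h1 := modq p hφ hψ hc ha1 i j
    have h2 : S.r (cl i j).out (⟨i % p ^ a, Nat.mod_lt _ hq0⟩, ⟨j % p ^ a, Nat.mod_lt _ hq0⟩) := by
      rw [hcl]
      exact Quotient.mk_out (s := S) _
    have h3 : X ^ N ∣ A (cl i j) - (φ ^ (i % p ^ a) * ψ ^ (j % p ^ a)) X := by
      rw [hA]
      exact h2
    have h4 := dvd_sub h1 h3
    rwa [sub_sub_sub_cancel_right] at h4
  have hsum : ∀ x₀ : Quotient S, ∑ i ∈ Finset.range M, ∑ j ∈ Finset.range (r + 1),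
      (if cl i j = x₀ then μ i j else 0) = 0 := by
    intro x₀
    obtain ⟨R, e, c, he, hc0, hR⟩ := hE (Quotient S) hcard A hA1 x₀
    have h1 := diff p hf R
    have h2 : X ^ (e + 1) ∣ ∑ i ∈ Finset.range M, ∑ j ∈ Finset.range (r + 1),
        μ i j • (d⁄dX k ((φ ^ i * ψ ^ j) X) * R.eval (((φ ^ i * ψ ^ j) X) ^ p)) :=
      dvd_trans (pow_dvd_pow X (by omega)) h1
    have h3 : ∀ i j, X ^ (e + 1) ∣
        μ i j • (d⁄dX k ((φ ^ i * ψ ^ j) X) * R.eval (((φ ^ i * ψ ^ j) X) ^ p)) -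
          X ^ e * C ((if cl i j = x₀ then μ i j else 0) * c) := by
      intro i j
      obtain ⟨hR1, hR2⟩ := hR (cl i j) _ (hcl1 i j)
      by_cases hx : cl i j = x₀
      · obtain ⟨y, hy⟩ := hR1 hx
        obtain ⟨z, hz⟩ := der_wild ((hφ.pow i).mul (hψ.pow j))
        rw [if_pos hx]
        have e1 : R.eval (((φ ^ i * ψ ^ j) X) ^ p) = X ^ e * C c + X ^ (e + 1) * y := by
          linear_combination hy
        have e2 : d⁄dX k ((φ ^ i * ψ ^ j) X) = 1 + X * z := by linear_combination hz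
        rw [e1, e2, smul_eq_C_mul, map_mul]
        refine ⟨C (μ i j) * (z * C c + y + X * z * y), ?_⟩
        ring
      · rw [if_neg hx, zero_mul, map_zero, mul_zero, sub_zero, smul_eq_C_mul]
        exact Dvd.dvd.mul_left (Dvd.dvd.mul_left (hR2 hx) _) _
    have h4 : X ^ (e + 1) ∣ ∑ i ∈ Finset.range M, ∑ j ∈ Finset.range (r + 1),
        X ^ e * C ((if cl i j = x₀ then μ i j else 0) * c) := by
      have h5 := dvd_sub h2 (Finset.dvd_sum (s := Finset.range M) (fun i _ =>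
        Finset.dvd_sum (s := Finset.range (r + 1)) (fun j _ => h3 i j)))
      simp only [Finset.sum_sub_distrib] at h5
      rwa [sub_sub_cancel] at h5
    have h6 : ∑ i ∈ Finset.range M, ∑ j ∈ Finset.range (r + 1),
        X ^ e * C ((if cl i j = x₀ then μ i j else 0) * c) =
        X ^ e * C ((∑ i ∈ Finset.range M, ∑ j ∈ Finset.range (r + 1),
          (if cl i j = x₀ then μ i j else 0)) * c) := by
      rw [Finset.sum_mul, map_sum, Finset.mul_sum]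
      refine Finset.sum_congr rfl fun i _ => ?_
      rw [Finset.sum_mul, map_sum, Finset.mul_sum]
    rw [h6, X_pow_dvd_iff] at h4
    have h7 := h4 e (Nat.lt_succ_self e)
    rw [coeff_X_pow_mul', if_pos le_rfl, Nat.sub_self, coeff_zero_C] at h7
    exact (mul_eq_zero.1 h7).resolve_right hc0
  have hT : ∀ i j, ((((cl i j).out.1 : ℕ) ≡ 0 [MOD p ^ r]) ∧
      (((cl i j).out.2 : ℕ) ≡ r [MOD p ^ r])) ↔ (i ≡ 0 [MOD p ^ r] ∧ j ≡ r [MOD p ^ r]) := by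
    intro i j
    have h1 := hcl1 i j
    rw [hA] at h1
    obtain ⟨h2, h3⟩ := ndr p hφ hψ hc ha1 ha2 hN h1
    exact ⟨fun h => ⟨h2.trans h.1, h3.trans h.2⟩, fun h => ⟨h2.symm.trans h.1, h3.symm.trans h.2⟩⟩
  have htot : ∑ i ∈ Finset.range M, ∑ j ∈ Finset.range (r + 1),
      (if i ≡ 0 [MOD p ^ r] ∧ j ≡ r [MOD p ^ r] then μ i j else 0) = 0 := by
    have h1 : ∑ x ∈ (Finset.univ : Finset (Quotient S)).filter
        (fun x => ((x.out.1 : ℕ) ≡ 0 [MOD p ^ r]) ∧ ((x.out.2 : ℕ) ≡ r [MOD p ^ r])),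
        ∑ i ∈ Finset.range M, ∑ j ∈ Finset.range (r + 1),
          (if cl i j = x then μ i j else 0) = 0 := by
      refine Finset.sum_eq_zero ?_
      intro x _
      exact hsum x
    rw [Finset.sum_comm] at h1
    refine Eq.trans ?_ h1
    refine Finset.sum_congr rfl fun i _ => ?_
    rw [Finset.sum_comm]
    refine Finset.sum_congr rfl fun j _ => ?_
    rw [Finset.sum_ite_eq]
    refine if_congr ?_ rfl rfl
    rw [Finset.mem_filter, ← hT i j]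
    exact ⟨fun h => ⟨Finset.mem_univ _, h⟩, fun h => h.2⟩
  have e1 : ∑ i ∈ Finset.range M, ∑ j ∈ Finset.range (r + 1),
      (if i ≡ 0 [MOD p ^ r] ∧ j ≡ r [MOD p ^ r] then μ i j else 0) =
      ∑ j ∈ Finset.range (r + 1),
      (if 0 ≡ 0 [MOD p ^ r] ∧ j ≡ r [MOD p ^ r] then μ 0 j else 0) := by
    refine Finset.sum_eq_single_of_mem 0 (Finset.mem_range.2 hM) fun i _ hi => ?_
    refine Finset.sum_eq_zero fun j hj => ?_
    by_cases h : i ≡ 0 [MOD p ^ r] ∧ j ≡ r [MOD p ^ r]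
    · rw [if_pos h]
      have hj1 := Finset.mem_range.1 hj
      have hjr : j = r := Nat.ModEq.eq_of_lt_of_lt h.2 (by omega) hs
      rw [hjr, hμ, if_neg hi]
    · rw [if_neg h]
  have e2 : ∑ j ∈ Finset.range (r + 1),
      (if 0 ≡ 0 [MOD p ^ r] ∧ j ≡ r [MOD p ^ r] then μ 0 j else 0) =
      (if 0 ≡ 0 [MOD p ^ r] ∧ r ≡ r [MOD p ^ r] then μ 0 r else 0) := by
    refine Finset.sum_eq_single_of_mem r (Finset.mem_range.2 (Nat.lt_succ_self r))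
      fun j hj hjr => ?_
    rw [if_neg]
    rintro ⟨-, h⟩
    apply hjr
    have hj1 := Finset.mem_range.1 hj
    exact Nat.ModEq.eq_of_lt_of_lt h (by omega) hs
  rw [e1, e2, if_pos ⟨Nat.ModEq.refl 0, Nat.ModEq.refl r⟩, hμ, if_pos rfl] at htot
  exact one_ne_zero htot

end Pool.Agent.H13.CH
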