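import Pool.Agent.H13.CH.Basic

/-!
PROOF.  Step: for every `n`, every `f` is `∑ c_i X ^ i (i < w₀) + (φ h - h)` modulo `Lc n` (induction on `n`, at
the index `n` subtract `c (φ g - g)` or `c X ^ n`).  Iterate `n` times: `(φ - 1) ^ n h` is divisible by `X ^ n`.
-/

open PowerSeries

namespace Pool.Agent.H13.CH

variable {k : Type*} [Field k]

/-! ### GEN: finite generation -/

theorem Lc_succ {p n : ℕ} {f : k⟦X⟧} (h : f ∈ Lc k p n) (h' : ¬ p ∣ n → coeff n f = 0) :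
    f ∈ Lc k p (n + 1) := by
  intro i hi hp
  rcases Nat.lt_succ_iff_lt_or_eq.mp hi with h1 | h1
  · exact h i h1 hp
  · rw [h1] at hp ⊢
    exact h' hp

theorem gen_step (p : ℕ) {φ : k⟦X⟧ →ₐ[k] k⟦X⟧} {w₀ : ℕ}
    (h : ∀ w, w₀ ≤ w → ¬ p ∣ w → ∃ g : k⟦X⟧, φ g - g ∈ Lc k p w ∧ coeff w (φ g - g) ≠ 0)
    (n : ℕ) (f : k⟦X⟧) : ∃ (c : Fin w₀ → k) (g : k⟦X⟧),
      f - ∑ i, c i • (X : k⟦X⟧) ^ (i : ℕ) - (φ g - g) ∈ Lc k p n := by
  induction n with
  | zero =>
    refine ⟨0, 0, ?_⟩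
    intro i hi
    omega
  | succ n ih =>
    obtain ⟨c, g, hcg⟩ := ih
    by_cases hp : p ∣ n
    · exact ⟨c, g, Lc_succ hcg fun h => absurd hp h⟩
    by_cases hn : n < w₀
    · set a := coeff n (f - ∑ i, c i • (X : k⟦X⟧) ^ (i : ℕ) - (φ g - g)) with ha
      refine ⟨c + Pi.single ⟨n, hn⟩ a, g, ?_⟩
      have h1 : f - ∑ i, (c + Pi.single ⟨n, hn⟩ a : Fin w₀ → k) i • (X : k⟦X⟧) ^ (i : ℕ) -
          (φ g - g) = (f - ∑ i, c i • (X : k⟦X⟧) ^ (i : ℕ) - (φ g - g)) - a • X ^ n := by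
        have h2 : ∑ i, (c + Pi.single ⟨n, hn⟩ a : Fin w₀ → k) i • (X : k⟦X⟧) ^ (i : ℕ) =
            ∑ i, c i • (X : k⟦X⟧) ^ (i : ℕ) + a • X ^ n := by
          simp_rw [Pi.add_apply, add_smul, Finset.sum_add_distrib]
          congr 1
          rw [Finset.sum_eq_single ⟨n, hn⟩]
          · rw [Pi.single_eq_same]
          · intro b _ hb
            rw [Pi.single_eq_of_ne hb, zero_smul]
          · intro hb
            exact absurd (Finset.mem_univ _) hb
        rw [h2]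
        abel
      rw [h1]
      apply Lc_succ
      · refine Submodule.sub_mem _ hcg (Submodule.smul_mem _ _ (dvd_mem_Lc dvd_rfl))
      · intro _
        rw [map_sub, coeff_smul, coeff_X_pow_self, smul_eq_mul, mul_one, ← ha, sub_self]
    · obtain ⟨u, hu, hu0⟩ := h n (not_lt.mp hn) hp
      set a := coeff n (f - ∑ i, c i • (X : k⟦X⟧) ^ (i : ℕ) - (φ g - g)) with ha
      refine ⟨c, g + (a / coeff n (φ u - u)) • u, ?_⟩
      have h1 : f - ∑ i, c i • (X : k⟦X⟧) ^ (i : ℕ) -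
          (φ (g + (a / coeff n (φ u - u)) • u) - (g + (a / coeff n (φ u - u)) • u)) =
          (f - ∑ i, c i • (X : k⟦X⟧) ^ (i : ℕ) - (φ g - g)) -
            (a / coeff n (φ u - u)) • (φ u - u) := by
        rw [map_add, map_smul, smul_sub]
        abel
      rw [h1]
      apply Lc_succ
      · exact Submodule.sub_mem _ hcg (Submodule.smul_mem _ _ hu)
      · intro _
        rw [map_sub (coeff n) _ ((a / coeff n (φ u - u)) • (φ u - u)), coeff_smul, smul_eq_mul,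
          div_mul_cancel₀ _ hu0, ← ha, sub_self]

theorem Wild.aeval_mem_Lc (p : ℕ) [Fact p.Prime] [CharP k p] {φ : k⟦X⟧ →ₐ[k] k⟦X⟧} (h : Wild φ)
    {n : ℕ} {f : k⟦X⟧} (hf : f ∈ Lc k p n) (q : Polynomial k) :
    (Polynomial.aeval (φ.toLinearMap : Module.End k k⟦X⟧) q) f ∈ Lc k p n := by
  rw [aeval_apply, Polynomial.sum_def]
  refine Submodule.sum_mem _ fun i _ => Submodule.smul_mem _ _ ((h.pow i).mem_Lc p hf)

theorem gen (p : ℕ) [Fact p.Prime] [CharP k p] {φ : k⟦X⟧ →ₐ[k] k⟦X⟧} (hφ : Wild φ) {w₀ : ℕ}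
    (h : ∀ w, w₀ ≤ w → ¬ p ∣ w → ∃ g : k⟦X⟧, φ g - g ∈ Lc k p w ∧ coeff w (φ g - g) ≠ 0)
    (n : ℕ) (f : k⟦X⟧) : ∃ q : Fin w₀ → Polynomial k,
      f - ∑ i, (Polynomial.aeval (φ.toLinearMap : Module.End k k⟦X⟧) (q i)) (X ^ (i : ℕ))
        ∈ Lc k p n := by
  have key : ∀ j : ℕ, ∃ (q : Fin w₀ → Polynomial k) (g : k⟦X⟧),
      f - ∑ i, (Polynomial.aeval (φ.toLinearMap : Module.End k k⟦X⟧) (q i)) (X ^ (i : ℕ)) -
        (Polynomial.aeval (φ.toLinearMap : Module.End k k⟦X⟧)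
          ((Polynomial.X - 1 : Polynomial k) ^ j)) g ∈ Lc k p n := by
    intro j
    induction j with
    | zero =>
      refine ⟨0, f, ?_⟩
      have : f - ∑ i : Fin w₀, (Polynomial.aeval (φ.toLinearMap : Module.End k k⟦X⟧)
          ((0 : Fin w₀ → Polynomial k) i)) (X ^ (i : ℕ)) -
          (Polynomial.aeval (φ.toLinearMap : Module.End k k⟦X⟧)
          ((Polynomial.X - 1 : Polynomial k) ^ 0)) f = 0 := by
        simp
      rw [this]
      exact Submodule.zero_mem _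
    | succ j ih =>
      obtain ⟨q, g, hqg⟩ := ih
      obtain ⟨c, g', hcg⟩ := gen_step p h n g
      refine ⟨fun i => q i + (Polynomial.X - 1) ^ j * Polynomial.C (c i), g', ?_⟩
      set Z : Module.End k k⟦X⟧ := Polynomial.aeval (φ.toLinearMap : Module.End k k⟦X⟧)
        ((Polynomial.X - 1 : Polynomial k) ^ j) with hZ
      have h1 : ∀ i : Fin w₀, (Polynomial.aeval (φ.toLinearMap : Module.End k k⟦X⟧)
          (q i + (Polynomial.X - 1) ^ j * Polynomial.C (c i))) (X ^ (i : ℕ)) =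
          (Polynomial.aeval (φ.toLinearMap : Module.End k k⟦X⟧) (q i)) (X ^ (i : ℕ)) +
            Z (c i • (X : k⟦X⟧) ^ (i : ℕ)) := by
        intro i
        rw [map_add, map_mul, Polynomial.aeval_C, LinearMap.add_apply, Module.End.mul_apply,
          ← hZ]
        rfl
      have h2 : (Polynomial.aeval (φ.toLinearMap : Module.End k k⟦X⟧)
          ((Polynomial.X - 1 : Polynomial k) ^ (j + 1))) g' = Z (φ g' - g') := by
        rw [pow_succ, map_mul, Module.End.mul_apply, ← hZ]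
        congr 1
        simp
      rw [h2, Finset.sum_congr rfl fun i _ => h1 i, Finset.sum_add_distrib, ← map_sum]
      have h3 : f - (∑ i : Fin w₀, (Polynomial.aeval (φ.toLinearMap : Module.End k k⟦X⟧) (q i))
          (X ^ (i : ℕ)) + Z (∑ i, c i • (X : k⟦X⟧) ^ (i : ℕ))) - Z (φ g' - g') =
          (f - ∑ i : Fin w₀, (Polynomial.aeval (φ.toLinearMap : Module.End k k⟦X⟧) (q i))
          (X ^ (i : ℕ)) - Z g) +
            Z (g - ∑ i, c i • (X : k⟦X⟧) ^ (i : ℕ) - (φ g' - g')) := by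
        rw [map_sub Z _ (φ g' - g'), map_sub Z g]
        abel
      rw [h3]
      exact Submodule.add_mem _ hqg (hφ.aeval_mem_Lc p hcg _)
  obtain ⟨q, g, hqg⟩ := key n
  refine ⟨q, ?_⟩
  have h1 := dvd_mem_Lc (p := p) (aeval_sub_one_pow_dvd hφ n g)
  have h2 := Submodule.add_mem _ hqg h1
  rwa [sub_add_cancel] at h2

end Pool.Agent.H13.CH
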