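import Pool.Agent.H13.CH.Basic

/-!
PROOF.  By `hG` every `φ ^ p ^ m` is wild and nontrivial, so it has a depth `i m ≥ 1`, `i m < C p ^ m`.  If
`i (m + 1) ≥ (p + 1) i m` for all `m`, then `i m ≥ (p + 1) ^ m`: impossible for large `m`.
-/

open PowerSeries

namespace Pool.Agent.H13.CH

variable {k : Type*} [Field k]

/-! ### GROW: from growth to `i₁ < (p + 1) i₀` -/

theorem exists_dep {θ : k⟦X⟧ →ₐ[k] k⟦X⟧} (h : Wild θ) {N : ℕ} (hN : ¬ X ^ (N + 1) ∣ θ X - X) :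
    ∃ i : ℕ, 1 ≤ i ∧ i < N ∧ Dep θ i := by
  classical
  have hex : ∃ n : ℕ, ¬ X ^ n ∣ θ X - X := ⟨N + 1, hN⟩
  obtain ⟨n, hn, hmin⟩ : ∃ n : ℕ, ¬ (X : k⟦X⟧) ^ n ∣ θ X - X ∧
      ∀ m < n, (X : k⟦X⟧) ^ m ∣ θ X - X :=
    ⟨Nat.find hex, Nat.find_spec hex, fun m hm => not_not.mp (Nat.find_min hex hm)⟩
  have hn3 : 3 ≤ n := by
    by_contra hlt
    exact hn (dvd_trans (pow_dvd_pow X (by omega)) h)
  have hnN : n ≤ N + 1 := by
    by_contra hlt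
    exact hN (hmin _ (by omega))
  obtain ⟨u, hu⟩ := hmin (n - 1) (by omega)
  refine ⟨n - 2, by omega, by omega, u, ?_, ?_⟩
  · intro h0
    apply hn
    obtain ⟨v, hv⟩ := X_dvd_iff.mpr h0
    refine ⟨v, ?_⟩
    rw [hu, hv, ← mul_assoc, ← pow_succ]
    congr 2
    omega
  · have h1 : (X : k⟦X⟧) ^ (n - 1) = X * X ^ (n - 2) := by
      rw [← pow_succ']
      congr 1
      omega
    rw [h1] at hu
    linear_combination hu

theorem pow_lower (p m : ℕ) : p ^ m * (p + m) ≤ p * (p + 1) ^ m := by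
  induction m with
  | zero => simp
  | succ m ih =>
    have h1 : p ^ m ≤ (p + 1) ^ m := Nat.pow_le_pow_left (Nat.le_succ p) m
    calc p ^ (m + 1) * (p + (m + 1)) = p * (p ^ m * (p + m)) + p * p ^ m := by ring
      _ ≤ p * (p * (p + 1) ^ m) + p * (p + 1) ^ m :=
        Nat.add_le_add (Nat.mul_le_mul_left p ih) (Nat.mul_le_mul_left p h1)
      _ = p * (p + 1) ^ (m + 1) := by ring

theorem grow (p : ℕ) [Fact p.Prime] [CharP k p] {φ : k⟦X⟧ →ₐ[k] k⟦X⟧} (hφ : Wild φ)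
    (hG : ∃ C : ℕ, ∀ m : ℕ, ¬ X ^ (C * p ^ m + 1) ∣ (φ ^ p ^ m) X - X) :
    ∃ m i₀ i₁ : ℕ, 1 ≤ i₀ ∧ i₁ < (p + 1) * i₀ ∧ Dep (φ ^ p ^ m) i₀ ∧
      Dep ((φ ^ p ^ m) ^ p) i₁ := by
  obtain ⟨C, hC⟩ := hG
  have hp : 0 < p := (Fact.out : p.Prime).pos
  choose i hi1 hi2 hi3 using fun m => exists_dep (hφ.pow (p ^ m)) (hC m)
  by_contra hcon
  push Not at hcon
  have hstep : ∀ m, (p + 1) * i m ≤ i (m + 1) := by
    intro m
    by_contra hlt
    refine hcon m (i m) (i (m + 1)) (hi1 m) (not_le.mp hlt) (hi3 m) ?_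
    rw [← pow_mul, ← pow_succ]
    exact hi3 (m + 1)
  have hlow : ∀ m, (p + 1) ^ m ≤ i m := by
    intro m
    induction m with
    | zero => simpa using hi1 0
    | succ m ih =>
      calc (p + 1) ^ (m + 1) = (p + 1) * (p + 1) ^ m := by ring
        _ ≤ (p + 1) * i m := Nat.mul_le_mul_left _ ih
        _ ≤ i (m + 1) := hstep m
  have h1 := pow_lower p (C * p)
  have h2 := hlow (C * p)
  have h3 := hi2 (C * p)
  have h4 : p ^ (C * p) * (p + C * p) < p * (C * p ^ (C * p)) :=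
    lt_of_le_of_lt h1 (Nat.mul_lt_mul_of_pos_left (lt_of_le_of_lt h2 h3) hp)
  have h5 : p * (C * p ^ (C * p)) = p ^ (C * p) * (C * p) := by ring
  rw [h5] at h4
  have h6 := Nat.lt_of_mul_lt_mul_left h4
  omega

end Pool.Agent.H13.CH
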