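import Pool.Agent.H13.CH.FG
import Pool.Agent.H13.CH.Gen
import Pool.Agent.H13.CH.Cham
import Pool.Agent.H13.CH.Fin
import Pool.Agent.H13.CH.Grow

open PowerSeries

namespace Pool.Agent.H13.CH

variable {k : Type*} [Field k]

/-! ### RAM -/

/-- There are no two commuting wild automorphisms `φ`, `ψ` of `k⟦X⟧` such that `φ ^ p ^ m` has
depth at most `C p ^ m` for all `m`, and which are independent in the topological sense `hND`. -/
theorem ram (p : ℕ) [Fact p.Prime] [CharP k p] {φ ψ : k⟦X⟧ →ₐ[k] k⟦X⟧} (hφ : Wild φ)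
    (hψ : Wild ψ) (hc : φ * ψ = ψ * φ)
    (hG : ∃ C : ℕ, ∀ m : ℕ, ¬ X ^ (C * p ^ m + 1) ∣ (φ ^ p ^ m) X - X)
    (hND : ∀ s : ℕ, ∃ N : ℕ, ∀ i j : ℕ, X ^ N ∣ (φ ^ i * ψ ^ j) X - X → p ^ s ∣ i ∧ p ^ s ∣ j) :
    False := by
  obtain ⟨m, i₀, i₁, hi, hlt, h0, h1⟩ := grow p hφ hG
  have hφm : Wild (φ ^ p ^ m) := hφ.pow _
  have hcm : φ ^ p ^ m * ψ = ψ * φ ^ p ^ m := (Commute.pow_left hc _ : Commute (φ ^ p ^ m) ψ)
  refine fin_contra p hφm hψ hcm (r := p + i₁ + i₀) ?_ ?_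
  · intro s
    obtain ⟨N, hN⟩ := hND (s + m)
    refine ⟨N, fun i j hij => ?_⟩
    rw [← pow_mul] at hij
    obtain ⟨h1, h2⟩ := hN _ _ hij
    constructor
    · rw [pow_add, mul_comm (p ^ s)] at h1
      exact Nat.dvd_of_mul_dvd_mul_left (pow_pos (Fact.out : p.Prime).pos m) h1
    · exact dvd_trans (pow_dvd_pow p (Nat.le_add_right s m)) h2
  · intro n
    exact cham p hφm hψ hcm _
      (fun f => gen p hφm (fun w hw hpw => FG p h0 h1 hi hlt hw hpw) n f)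

end Pool.Agent.H13.CH
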